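import Pool.Agent.N874.PP.Lat

set_option autoImplicit false
set_option linter.all false

/-!
# Project PP: the reciprocity law from its parts
-/

open Polynomial IsDedekindDomain Matrix
open scoped Classical

namespace Pool.Agent.N141.PP

open Pool.Agent.N874.PP

/-- the prime of `k[X]` attached to an irreducible polynomial -/
noncomputable def vP {k : Type} [Field k] (P : k[X]) (hP : Irreducible P) : HeightOneSpectrum k[X] :=
  ⟨Ideal.span {P}, (Ideal.span_singleton_prime hP.ne_zero).2 hP.prime, by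
    rw [Ne, Ideal.span_singleton_eq_bot]; exact hP.ne_zero⟩

section iso

variable {k K L : Type} [Field k] [Field K] [Algebra k[X] K] [IsFractionRing k[X] K]
    [Field L] [Algebra K L] [Algebra k[X] L] {a b : k[X]} {θ : L}

/-- the matrix of coordinates -/
noncomputable def MM (h : IsCub K a b θ) (ve : Fin 3 → L) : Matrix (Fin 3) (Fin 3) K :=
  Matrix.of fun i j => h.co j (ve i)

/-- the Gram matrix -/
noncomputable def GG (h : IsCub K a b θ) (α : L) : Matrix (Fin 3) (Fin 3) K :=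
  Matrix.of fun i j => h.co 2 (θ ^ (i : ℕ) * θ ^ (j : ℕ) / α)

theorem vec_eq (θ : L) (j : Fin 3) : Pool.Agent.N874.PP.vec θ j = θ ^ (j : ℕ) := by
  fin_cases j <;> simp [Pool.Agent.N874.PP.vec]

theorem expand (h : IsCub K a b θ) (x : L) : x = ∑ j : Fin 3, h.co j x • θ ^ (j : ℕ) := by
  conv_lhs => rw [← h.basis.sum_repr x]
  refine Finset.sum_congr rfl fun j _ => ?_
  rw [h.basis_apply, vec_eq]
  rfl

theorem MM_unit (h : IsCub K a b θ) {ve : Fin 3 → L} (hli : LinearIndependent K ve) : IsUnit (MM h ve) := by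
  rw [← Matrix.linearIndependent_rows_iff_isUnit]
  have h1 := hli.map' (h.basis.equivFun : L →ₗ[K] (Fin 3 → K)) (LinearMap.ker_eq_bot.2 h.basis.equivFun.injective)
  exact h1

theorem gram (h : IsCub K a b θ) (ve : Fin 3 → L) (α : L) (i i' : Fin 3) :
    (MM h ve * GG h α * (MM h ve)ᵀ) i i' = h.co 2 (ve i * ve i' / α) := by
  have e : ve i * ve i' / α = ∑ j : Fin 3, ∑ l : Fin 3,
      (h.co j (ve i) * h.co l (ve i')) • (θ ^ (j : ℕ) * θ ^ (l : ℕ) / α) := by
    conv_lhs => rw [expand h (ve i), expand h (ve i'), Finset.sum_mul_sum, Finset.sum_div]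
    refine Finset.sum_congr rfl fun j _ => ?_
    rw [Finset.sum_div]
    refine Finset.sum_congr rfl fun l _ => ?_
    rw [smul_mul_smul_comm, smul_div_assoc]
  rw [e, map_sum]
  simp only [map_sum, map_smul, smul_eq_mul, Matrix.mul_apply, Matrix.transpose_apply, MM, GG, Matrix.of_apply,
    Finset.sum_mul]
  rw [Finset.sum_comm]
  refine Finset.sum_congr rfl fun j _ => Finset.sum_congr rfl fun l _ => ?_
  ring

theorem iso_iff (h : IsCub K a b θ) (v : HeightOneSpectrum k[X]) (α : L) {ve : Fin 3 → L}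
    (hli : LinearIndependent K ve) (d e : k[X]) (ho : ∀ i j, i ≠ j → h.co 2 (ve i * ve j / α) = 0)
    (h0 : h.co 2 (ve 0 ^ 2 / α) = algebraMap k[X] K d) (h1 : h.co 2 (ve 1 ^ 2 / α) = algebraMap k[X] K e)
    (h2 : h.co 2 (ve 2 ^ 2 / α) = - algebraMap k[X] K (d * e)) :
    IsoAt h v α ↔ ∃ x y z : v.adicCompletion K, ¬ (x = 0 ∧ y = 0 ∧ z = 0) ∧
    algebraMap K (v.adicCompletion K) (algebraMap k[X] K d) * x ^ 2 +
      algebraMap K (v.adicCompletion K) (algebraMap k[X] K e) * y ^ 2 -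
      algebraMap K (v.adicCompletion K) (algebraMap k[X] K (d * e)) * z ^ 2 = 0 := by
  set f := algebraMap K (v.adicCompletion K) with hf
  set M := MM h ve with hM
  set G := GG h α with hG
  have hD : M * G * Mᵀ = Matrix.diagonal ![algebraMap k[X] K d, algebraMap k[X] K e, - algebraMap k[X] K (d * e)] := by
    ext i i'
    rw [hM, hG, gram]
    by_cases hii : i = i'
    · subst hii
      rw [Matrix.diagonal_apply_eq, ← pow_two]
      fin_cases i
      · exact h0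
      · exact h1
      · exact h2
    · rw [Matrix.diagonal_apply_ne _ hii]
      exact ho i i' hii
  have hMu : IsUnit (M.map f) := (MM_unit h hli).map (f.mapMatrix : Matrix (Fin 3) (Fin 3) K →+* _)
  have hMt : IsUnit (M.map f)ᵀ := (Matrix.isUnit_transpose _).2 hMu
  have hq : ∀ x : Fin 3 → v.adicCompletion K, (∑ i : Fin 3, ∑ j : Fin 3, f
      (h.co 2 (θ ^ (i : ℕ) * θ ^ (j : ℕ) / α)) * x i * x j) = x ⬝ᵥ ((G.map f) *ᵥ x) := by
    intro x
    simp only [dotProduct, Matrix.mulVec, Finset.mul_sum, Matrix.map_apply, hG, GG, Matrix.of_apply]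
    refine Finset.sum_congr rfl fun i _ => Finset.sum_congr rfl fun j _ => ?_
    ring
  have hq2 : ∀ y : Fin 3 → v.adicCompletion K, ((M.map f)ᵀ *ᵥ y) ⬝ᵥ ((G.map f) *ᵥ ((M.map f)ᵀ *ᵥ y)) =
      f (algebraMap k[X] K d) * y 0 ^ 2 + f (algebraMap k[X] K e) * y 1 ^ 2 -
        f (algebraMap k[X] K (d * e)) * y 2 ^ 2 := by
    intro y
    have e1 : (M.map f)ᵀ *ᵥ y = y ᵥ* (M.map f) := Matrix.mulVec_transpose _ _
    have e2 : (M.map f) * (G.map f) * (M.map f)ᵀ = (M * G * Mᵀ).map f := by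
      rw [Matrix.map_mul, Matrix.map_mul, Matrix.transpose_map]
    have e3 : ((M.map f)ᵀ *ᵥ y) ⬝ᵥ ((G.map f) *ᵥ ((M.map f)ᵀ *ᵥ y)) = y ⬝ᵥ (((M * G * Mᵀ).map f) *ᵥ y) := by
      rw [← e2, ← Matrix.mulVec_mulVec, ← Matrix.mulVec_mulVec, Matrix.dotProduct_mulVec y, ← e1]
    rw [e3, hD]
    simp only [dotProduct, Matrix.mulVec, Fin.sum_univ_three, Matrix.map_apply, Matrix.diagonal_apply]
    simp
    ring
  unfold IsoAt
  simp_rw [← hf]
  constructor
  · rintro ⟨x, hx, hx0⟩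
    rw [hq] at hx0
    obtain ⟨y, rfl⟩ := (Matrix.mulVec_surjective_iff_isUnit.2 hMt) x
    rw [hq2] at hx0
    refine ⟨y 0, y 1, y 2, ?_, hx0⟩
    rintro ⟨a0, a1, a2⟩
    apply hx
    have : y = 0 := by
      funext i; fin_cases i
      · exact a0
      · exact a1
      · exact a2
    rw [this, Matrix.mulVec_zero]
  · rintro ⟨x, y, z, hne, h0⟩
    refine ⟨(M.map f)ᵀ *ᵥ ![x, y, z], ?_, ?_⟩
    · intro h3
      have h4 := (Matrix.mulVec_injective_iff_isUnit.2 hMt) (h3.trans (Matrix.mulVec_zero _).symm)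
      apply hne
      refine ⟨?_, ?_, ?_⟩
      · exact congrFun h4 0
      · exact congrFun h4 1
      · exact congrFun h4 2
    · rw [hq, hq2]
      exact h0

end iso

/-- two different monic irreducible polynomials do not lie in one prime -/
theorem eq_of_ov {k O : Type} [Field k] [CommRing O] [IsDedekindDomain O] [Algebra k[X] O]
    {P Q : k[X]} (hP : P.Monic) (hPi : Irreducible P) (hQ : Q.Monic) (hQi : Irreducible Q)
    {𝔓 : HeightOneSpectrum O} (h1 : Ov P 𝔓) (h2 : Ov Q 𝔓) : P = Q := by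
  by_contra hne
  have hcop : IsCoprime P Q := by
    rw [hPi.coprime_iff_not_dvd]
    intro hdvd
    exact hne (Polynomial.eq_of_monic_of_associated hP hQ (hPi.associated_of_dvd hQi hdvd))
  obtain ⟨u, v, huv⟩ := hcop
  have h3 : (1 : O) ∈ 𝔓.asIdeal := by
    have := congrArg (algebraMap k[X] O) huv
    rw [map_add, map_mul, map_mul, map_one] at this
    rw [← this]
    exact 𝔓.asIdeal.add_mem (𝔓.asIdeal.mul_mem_left _ h1) (𝔓.asIdeal.mul_mem_left _ h2)
  exact 𝔓.isPrime.ne_top ((Ideal.eq_top_iff_one _).2 h3)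

/-- **The reciprocity law.** -/
theorem rec (h1 : S_HP) (h2 : S_TAME) (h3 : S_DIAG) (h4 : S_UNIM) (h5 : S_RAM) (h6 : S_EXQ) : S_REC := by
  intro k K L O _ _ _ _ _ _ _ _ _ _ _ _ _ _ _ _ a b θ N a₀ b₀ S s h6k hc hirr hS hF 𝔮 h𝔮 α hα hsq hev
  have h2k : (2 : k) ≠ 0 := by
    intro h
    apply h6k
    have : (6 : k) = 2 * 3 := by norm_num
    rw [this, h, zero_mul]
  obtain ⟨d, e, hdm, hds, hde, he0, hes, ve, hli, ho, g0, g1, g2⟩ := h3 k K L a b θ N h6k hc hF.da hF.db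
    (by rw [hF.ca, hF.cb]; exact hirr) α hα hsq
  obtain ⟨-, heven⟩ := h1 k h2k d e hdm hds hde he0 hes
  have hiso : ∀ (P : k[X]) (hP : Irreducible P), IsoAt hc (vP P hP) α ↔ ¬ HBad P d e := by
    intro P hP
    rw [iso_iff hc (vP P hP) α hli d e ho g0 g1 g2]
    exact h2 k K h2k P (vP P hP) hP rfl d e hdm.ne_zero he0 hds hes
  have hset : {P : k[X] | P.Monic ∧ Irreducible P ∧ HBad P d e} =
      ((S.filter fun Q => ¬ Ev (𝔮 Q) α ∧ ¬ Sq1 (𝔮 Q) (α * (algebraMap k[X] L Q * θ)) : Finset k[X]) : Set k[X]) := by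
    ext P
    rw [Finset.coe_filter]
    constructor
    · rintro ⟨hPm, hPi, hPb⟩
      have hn : ¬ IsoAt hc (vP P hPi) α := fun h => (hiso P hPi).1 h hPb
      have hn2 : ¬ ∀ 𝔓 : HeightOneSpectrum O, Ov P 𝔓 → Ev 𝔓 α := fun h =>
        hn (h4 k K L O a b θ h6k hc hF.sq P (vP P hPi) hPi rfl α hα h)
      push Not at hn2
      obtain ⟨𝔓, hov, hne⟩ := hn2
      have hex : ∃ Q ∈ S, 𝔓 = 𝔮 Q := by
        by_contra hcon
        push Not at hcon
        exact hne (hev 𝔓 hcon)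
      obtain ⟨Q, hQS, rfl⟩ := hex
      obtain ⟨hQm, hQi, hQs⟩ := hS Q hQS
      obtain rfl := eq_of_ov hPm hPi hQm hQi hov (h𝔮 Q hQS).1
      refine ⟨hQS, hne, fun hsq1 => hn ?_⟩
      have hQa : ∀ z : k[X], ¬ P ∣ z ^ 2 + a := by
        intro z hz
        apply hQs z
        have h7 := dvd_sub hz (hF.ra P hQS)
        have h8 : z ^ 2 + a - (a - s P) = z ^ 2 + s P := by ring
        rwa [h8] at h7
      obtain ⟨𝔓₁, 𝔮', o1, o2, v1, v2, -, hall⟩ := h6 k K L O a b θ h6k hc hF.sq P hPi (hF.rb P hQS) hQa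
      have hev1 : Ev 𝔓₁ α := by
        refine hev 𝔓₁ fun Q' hQ' h9 => ?_
        rw [h9, (h𝔮 Q' hQ').2] at v1
        exact lt_irrefl _ v1
      exact (h5 k K L O a b θ h6k hc hF.sq P (vP P hPi) hPi rfl (hF.rb P hQS) hQa 𝔓₁ (𝔮 P) o1 (h𝔮 P hQS).1 v1
        (h𝔮 P hQS).2 α hα hev1 hne).2 hsq1
    · rintro ⟨hQS, hne, hns⟩
      obtain ⟨hQm, hQi, hQs⟩ := hS P hQS
      refine ⟨hQm, hQi, ?_⟩
      by_contra hb
      have hi := (hiso P hQi).2 hb
      have hQa : ∀ z : k[X], ¬ P ∣ z ^ 2 + a := by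
        intro z hz
        apply hQs z
        have h7 := dvd_sub hz (hF.ra P hQS)
        have h8 : z ^ 2 + a - (a - s P) = z ^ 2 + s P := by ring
        rwa [h8] at h7
      obtain ⟨𝔓₁, 𝔮', o1, o2, v1, v2, -, hall⟩ := h6 k K L O a b θ h6k hc hF.sq P hQi (hF.rb P hQS) hQa
      have hev1 : Ev 𝔓₁ α := by
        refine hev 𝔓₁ fun Q' hQ' h9 => ?_
        rw [h9, (h𝔮 Q' hQ').2] at v1
        exact lt_irrefl _ v1
      exact hns ((h5 k K L O a b θ h6k hc hF.sq P (vP P hQi) hQi rfl (hF.rb P hQS) hQa 𝔓₁ (𝔮 P) o1 (h𝔮 P hQS).1 v1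
        (h𝔮 P hQS).2 α hα hev1 hne).1 hi)
  rw [hset, Set.ncard_coe_finset] at heven
  convert heven

end Pool.Agent.N141.PP
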